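import Pool.Agent.Helper99.EXC.GoalsD

/-! # EXC, packet UPP: upper bound for the number of visits to the origin -/

open Finset

namespace Pool.Agent.Helper55.EXC

open Pool.Agent.Helper99.EXC
open Pool.Agent.Helper99.ERW

lemma La_sub (a : ℝ) (f g : Site 2 → ℝ) (x : Site 2) :
    La a (fun x => f x - g x) x = La a f x - La a g x := by
  unfold La secondDiff; ring

lemma Df_sub (f g : Site 2 → ℝ) (x : Site 2) :
    Df (fun x => f x - g x) x = Df f x - Df g x := by
  unfold Df secondDiff; ring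

lemma zero_mem_Bx (b k : ℕ) : (0 : Site 2) ∈ Bx b k := by
  unfold Bx
  rw [mem_box]
  intro i
  simp

theorem UPP (hLTM : LTM_stmt) (hYBD : YBD_stmt) : UPP_stmt := by
  intro a p V Tl Si φ Φ κ C b k1 hc hs s hks N s0 hs0
  obtain ⟨-, hltm, -⟩ := hLTM a p V Tl Si hc (Bx b (s + 1)) N s0
  have hV : ∀ z, 0 ≤ V z := by
    intro z
    have := hc.tv z 0
    simpa [Vm] using this
  have hC0 : 0 ≤ C := by linarith [hs.cone]
  -- the function f
  have h1 := tele p (Bx b (s + 1)) N (F := fun st => (fun x => φ x - Φ s x) st.1)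
    (g := fun st => ((if st.1 = 0 then 1 else 0) - La a (Φ s) st.1) +
      dS a p st * Df (fun x => φ x - Φ s x) st.1) (fun st _ => by
        rw [stp_pos p a (fun x => φ x - Φ s x) st, La_sub, hs.lap]
        ring) s0
  rw [Rw_add p _ N (fun st => (if st.1 = 0 then 1 else 0) - La a (Φ s) st.1)
      (fun st => dS a p st * Df (fun x => φ x - Φ s x) st.1),
    Rw_sub p _ N (fun st => if st.1 = 0 then 1 else 0) (fun st => La a (Φ s) st.1)] at h1
  have h2 : Ex p (Bx b (s + 1)) N (fun st => (fun x => φ x - Φ s x) st.1) s0 ≤ 0 :=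
    Ex_le_const hc.p0 hc.p1 _ N (fun st => by
      have := hs.ge s st.1
      simp only
      linarith) s0
  have h3 : Φ s 0 ≤ κ * s + C := by
    have := (abs_le.1 (hs.near s hks 0 (zero_mem_Bx b s))).2
    linarith
  have h4 := hYBD a p V Tl Si φ Φ κ C b k1 hc hs s s hks le_rfl N s0
  have h5 : |Rw p (Bx b (s + 1)) N (fun st => dS a p st * Df (fun x => φ x - Φ s x) st.1) s0| ≤
      2 * C * ww V b s := by
    refine (Rw_abs hc.p0 hc.p1 _ N _ s0).trans ?_
    have e1 : (fun st : St => |dS a p st * Df (fun x => φ x - Φ s x) st.1|) =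
        fun st => |Df (fun x => φ x - Φ s x) st.1| * |dS a p st| := by
      funext st
      rw [abs_mul, mul_comm]
    rw [e1]
    refine (hltm (Df (fun x => φ x - Φ s x))).trans ?_
    unfold ww
    rw [mul_sum]
    refine sum_le_sum fun z _ => ?_
    have e2 : |Df (fun x => φ x - Φ s x) z| ≤ 2 * C / (1 + nm z) ^ 2 := by
      rw [Df_sub]
      have a1 := hs.hbd z
      have a2 := hs.dphi2 s hks z
      calc |Df φ z - Df (Φ s) z| ≤ |Df φ z| + |Df (Φ s) z| := abs_sub _ _
        _ ≤ C / (1 + nm z) ^ 2 + C / (1 + nm z) ^ 2 := add_le_add a1 a2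
        _ = 2 * C / (1 + nm z) ^ 2 := by ring
    calc |Df (fun x => φ x - Φ s x) z| * V z ≤ 2 * C / (1 + nm z) ^ 2 * V z :=
          mul_le_mul_of_nonneg_right e2 (hV z)
      _ = 2 * C * (V z / (1 + nm z) ^ 2) := by ring
  have h6 := (abs_le.1 h5).1
  have h7 : (fun x => φ x - Φ s x) s0.1 = - Φ s 0 := by
    simp only [hs0, hs.zero, zero_sub]
  rw [h7] at h1
  have h8 : κ * ((s : ℝ) - s) = 0 := by ring
  rw [h8] at h4
  linarith

end Pool.Agent.Helper55.EXC
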